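import Mathlib
import Pool.Agent.TH841.PT.Fin1

/-!
# Tate-Shafarevich groups over varying multiquadratic fields

`E : y² = x³ + A x + B` is an elliptic curve with three integer roots and `D₀`, `D₁`, ..., `D_s`
are arbitrary nonzero polynomials with integer coefficients, of any degrees. `W_t` is the quadratic
twist of `E` by `D₀(t)`, considered over the field `F_t = ℚ(√D₁(t), ..., √D_s(t))`. All the moments
of `2 ^ (rank W_t(F_t) + corank of the 2-primary part of Ш(W_t / F_t))` over `N < t ≤ N + M` are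
bounded, uniformly for `|N| ≤ M ^ L`.
-/

set_option autoImplicit false

namespace Pool.Agent.Results.MP_78d38b_nt.PolynomialFields

open Finset Polynomial

open Pool.Agent.TH841.NF.D (HasDiv crk rk)

/-- the curve `y² = x³ + A x + B` over `F` -/
def EF (A B : ℤ) (F : Type) [Field F] : WeierstrassCurve F := ⟨0, 0, 0, (A : F), (B : F)⟩

/-- the number field `F` is generated by square roots of the integers `d i` -/
def Gen (F : Type) [Field F] [NumberField F] {s : ℕ} (d : Fin s → ℤ) : Prop :=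
  ∃ x : Fin s → F, (∀ i, x i ^ 2 = (d i : F)) ∧
    IntermediateField.adjoin ℚ (Set.range x) = ⊤

/-- the integers `t` with `N < t ≤ N + M` that are not zeros of the polynomials -/
noncomputable def Par {s : ℕ} (D₀ : ℤ[X]) (D : Fin s → ℤ[X]) (N : ℤ) (M : ℕ) : Finset ℤ := by
  classical
  exact (Ioc N (N + M)).filter (fun t => D₀.eval t ≠ 0 ∧ ∀ i, (D i).eval t ≠ 0)

open Classical in
/-- **Theorem.** Let `y² = (x - e₁) (x - e₂) (x - e₃) = x³ + A x + B` be an elliptic curve with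
integers `e₁`, `e₂`, `e₃`, let `D₀`, `D₁`, ..., `D_s` be nonzero polynomials with integer
coefficients, `F t = ℚ(√D₁(t), ..., √D_s(t))` and `W t` the quadratic twist of the curve by
`D₀(t)`, over `F t`. For all `k` and `L` there is `C` such that for all integers `M ≥ 1` and
`|N| ≤ M ^ L` and the `t` with `N < t ≤ N + M`, not a zero of the polynomials: the sum of
`2 ^ (k (rank W_t(F_t) + corank Ш(W_t / F_t)[2^∞]))` is at most `C M`, and at most
`C M / 2 ^ (k n)` of these `t` have `rank W_t(F_t) + corank Ш(W_t / F_t)[2^∞] ≥ n`. -/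
theorem result (A B e₁ e₂ e₃ : ℤ) (hE : 4 * A ^ 3 + 27 * B ^ 2 ≠ 0)
    (he : ∀ x : ℤ, x ^ 3 + A * x + B = (x - e₁) * (x - e₂) * (x - e₃))
    (s : ℕ) (D₀ : ℤ[X]) (hD₀ : D₀ ≠ 0) (D : Fin s → ℤ[X]) (hD : ∀ i, D i ≠ 0) (k L : ℕ) :
    ∃ C : ℝ, ∀ (N : ℤ) (M : ℕ), 1 ≤ M → |N| ≤ (M : ℤ) ^ L →
      ∀ (F : ℤ → Type) [∀ t, Field (F t)] [∀ t, NumberField (F t)],
      (∀ t ∈ Par D₀ D N M, Gen (F t) (fun i => (D i).eval t)) →
      ∀ W : ∀ t, WeierstrassCurve (F t),
      (∀ t, W t = EF (D₀.eval t ^ 2 * A) (D₀.eval t ^ 3 * B) (F t)) →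
      (∀ t ∈ Par D₀ D N M, BddAbove {q | HasDiv (W t) q}) ∧
      ∑ t ∈ Par D₀ D N M, ((2 : ℝ) ^ (rk (W t) + crk (W t))) ^ k ≤ C * M ∧
      ∀ n : ℕ, (((Par D₀ D N M).filter (fun t => n ≤ rk (W t) + crk (W t))).card : ℝ) ≤
        C * M / 2 ^ (k * n) := by
  obtain ⟨C, hC⟩ := Pool.Agent.TH841.PT.mq_poly Pool.Agent.TH841.PT.avsq hE he s D₀ hD₀ D hD k L
  refine ⟨C, fun N M hM hN F _ _ hF W hW => ?_⟩
  have hPar : Par D₀ D N M =
      (Ioc N (N + M)).filter (fun t => D₀.eval t ≠ 0 ∧ ∀ i, (D i).eval t ≠ 0) := by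
    unfold Par
    congr
  rw [hPar] at hF ⊢
  obtain ⟨h1, h2, h3⟩ := hC N M hM hN F (fun t ht => hF t (by convert ht)) W hW
  refine ⟨fun t ht => h1 t (by convert ht), ?_, fun n => ?_⟩
  · convert h2
  · convert h3 n

end Pool.Agent.Results.MP_78d38b_nt.PolynomialFields
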