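import Mathlib
import Pool.Agent.TH841.NF.FamN
import Pool.Agent.TH841.SH.Ht
import Pool.Agent.W307.RT.Tors

/-!
# Tate-Shafarevich groups over quadratic and multiquadratic fields, all curves by height

The elliptic curves over `ℚ` with full rational 2-torsion, ordered by height, their quadratic
twists by `d₀`, over the number field `F = ℚ(√d₁, ..., √d_s)`. The average of
`(2 ^ (rank over F + corank of the 2-primary part of Ш over F)) ^ (2 / 2 ^ s)` is at most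
`C * 128 ^ ω(d₀ d₁ ... d_s)`; the constant depends on nothing. For quadratic fields (`s = 1`) this
is the average of `2 ^ (rank + corank)`.
-/

set_option autoImplicit false

namespace Pool.Agent.Results.MP_78d38b_nt.QuadraticBaseChange

open Finset Filter

open Pool.Agent.TH841.NF.D (HasDiv crk rk)

/-- the curve `y² = x³ + A x + B` over `F` -/
def EF (A B : ℤ) (F : Type) [Field F] : WeierstrassCurve F := ⟨0, 0, 0, (A : F), (B : F)⟩

/-- the quadratic twist by `d` of the curve `y² = x³ + A x + B`, `c = (A, B)`, over `F` -/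
def Tw (d : ℤ) (c : ℤ × ℤ) (F : Type) [Field F] : WeierstrassCurve F :=
  EF (d ^ 2 * c.1) (d ^ 3 * c.2) F

/-- the number field `F` is generated by square roots of the integers `d i` -/
def Gen (F : Type) [Field F] [NumberField F] {s : ℕ} (d : Fin s → ℤ) : Prop :=
  ∃ x : Fin s → F, (∀ i, x i ^ 2 = (d i : F)) ∧
    IntermediateField.adjoin ℚ (Set.range x) = ⊤

open Classical in
/-- The pairs `(A, B)` of integers such that `4 A³ + 27 B² ≠ 0`, there is no prime `p` with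
`p⁴ ∣ A` and `p⁶ ∣ B`, the height `max (4 |A|³) (27 B²)` is at most `H`, and `Z/2 x Z/2` embeds in
the group of the rational points of `y² = x³ + A x + B`. (The bounds `|A|, |B| ≤ H` follow from the
bound of the height. Every elliptic curve over `ℚ` is isomorphic to `y² = x³ + A x + B` for exactly
one pair with the first two properties.) -/
noncomputable def Fam (H : ℕ) : Finset (ℤ × ℤ) :=
  ((Icc (-(H : ℤ)) H) ×ˢ (Icc (-(H : ℤ)) H)).filter (fun c : ℤ × ℤ =>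
    4 * c.1 ^ 3 + 27 * c.2 ^ 2 ≠ 0 ∧ 4 * |c.1| ^ 3 ≤ H ∧ 27 * c.2 ^ 2 ≤ H ∧
    (∀ p : ℕ, p.Prime → ¬ ((p : ℤ) ^ 4 ∣ c.1 ∧ (p : ℤ) ^ 6 ∣ c.2)) ∧
    ∃ f : ZMod 2 × ZMod 2 →+ (EF c.1 c.2 ℚ).toAffine.Point, Function.Injective f)

lemma Fam_eq (H : ℕ) : Fam H = Pool.Agent.W307.RT.Cv 2 H := by
  classical
  unfold Fam Pool.Agent.W307.RT.Cv
  apply filter_congr
  intro c _
  have h : Pool.Agent.W307.RT.HasT 2 (Pool.Agent.W307.RT.Sh c.1 c.2) ↔
      ∃ f : ZMod 2 × ZMod 2 →+ (EF c.1 c.2 ℚ).toAffine.Point, Function.Injective f :=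
    Pool.Agent.W307.RT.tors_iff
  rw [h]

/-- The number of these curves of height at most `H` tends to infinity. -/
theorem card_tendsto : Tendsto (fun H : ℕ => (Fam H).card) atTop atTop := by
  simp only [Fam_eq]
  exact Pool.Agent.W307.RT.tendsto_of_low Pool.Agent.W672.FK.lowf

/-- **Theorem.** There is a constant `C` such that for all nonzero integers `d₀`, `d₁`, ..., `d_s`,
`F = ℚ(√d₁, ..., √d_s)`, `α = 2 / 2 ^ s` and all `H`, for the quadratic twists `W` by `d₀` of the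
elliptic curves over `ℚ` with full rational 2-torsion and height at most `H`: the average of
`(2 ^ (rank W(F) + corank Ш(W / F)[2^∞])) ^ α` is at most `C * 128 ^ ω(d₀ d₁ ... d_s)`, and the
proportion of the `W` with `rank W(F) + corank Ш(W / F)[2^∞] ≥ n` is at most
`C * 128 ^ ω(d₀ d₁ ... d_s) / 2 ^ (α n)`. -/
theorem result : ∃ C : ℝ, ∀ (d₀ : ℤ) (s : ℕ) (d : Fin s → ℤ), d₀ ≠ 0 → (∀ i, d i ≠ 0) →
    ∀ (F : Type) [Field F] [NumberField F], Gen F d → ∀ H : ℕ,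
    (∀ c ∈ Fam H, BddAbove {q | HasDiv (Tw d₀ c F) q}) ∧
    ∑ c ∈ Fam H, ((2 : ℝ) ^ (rk (Tw d₀ c F) + crk (Tw d₀ c F))) ^ ((2 : ℝ) / 2 ^ s) ≤
      C * 128 ^ (d₀ * ∏ i, d i).natAbs.primeFactors.card * (Fam H).card ∧
    ∀ n : ℕ, (((Fam H).filter (fun c => n ≤ rk (Tw d₀ c F) + crk (Tw d₀ c F))).card : ℝ) ≤
      C * 128 ^ (d₀ * ∏ i, d i).natAbs.primeFactors.card * (Fam H).card /
        ((2 : ℝ) ^ n) ^ ((2 : ℝ) / 2 ^ s) := by
  obtain ⟨C, hC0, hC⟩ := Pool.Agent.TH841.SH.twist_height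
  obtain ⟨Φ, -, hΦ⟩ := Pool.Agent.W513.FK.parf
  refine ⟨C, fun d₀ s d hd₀ hd F _ _ hF H => ?_⟩
  have hdT : ∀ T : Finset (Fin s), d₀ * ∏ i ∈ T, d i ≠ 0 := fun T =>
    mul_ne_zero hd₀ (prod_ne_zero_iff.2 fun i _ => hd i)
  have hn : (Fintype.card (Finset (Fin s)) : ℝ) = 2 ^ s := by
    rw [Fintype.card_finset, Fintype.card_fin]
    push_cast
    rfl
  refine Pool.Agent.TH841.NF.famR (Fam H) (fun _ => F) (fun c => Tw d₀ c F)
    (fun c => ∏ T : Finset (Fin s), ((Pool.Agent.W307.SE.SelR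
      ((d₀ * ∏ i ∈ T, d i) ^ 2 * c.1) ((d₀ * ∏ i ∈ T, d i) ^ 3 * c.2)).ncard : ℝ))
    ((2 : ℝ) / 2 ^ s) (by positivity) _ ?_ ?_
  · intro c hc q hq
    classical
    have hc' := hc
    rw [Fam_eq] at hc'
    unfold Pool.Agent.W307.RT.Cv at hc'
    obtain ⟨_, a1, a2, _, _, a3⟩ := mem_filter.1 hc'
    obtain ⟨-, -, -, -, -, e1, e2, e3, he, -, -⟩ := hΦ c a1 a3
    have g2 : ∀ T : Finset (Fin s), (∏ i ∈ T, d i) ^ 2 * (d₀ ^ 2 * c.1) =
        (d₀ * ∏ i ∈ T, d i) ^ 2 * c.1 := fun T => by ring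
    have g3 : ∀ T : Finset (Fin s), (∏ i ∈ T, d i) ^ 3 * (d₀ ^ 3 * c.2) =
        (d₀ * ∏ i ∈ T, d i) ^ 3 * c.2 := fun T => by ring
    refine Pool.Agent.TH841.NF.one_field hF hd (Pool.Agent.TH639.SL.disc_tw hd₀ a1) _ ?_ ?_ hq
    · intro T
      rw [g2, g3]
      have h1 := (hC _ (hdT T) H).1
      rw [← Fam_eq] at h1
      exact Pool.Agent.TH841.SH.bd_selR (Pool.Agent.TH639.SL.disc_tw (hdT T) a1)
        (Pool.Agent.TH639.SL.roots_tw he _) (h1 c hc)
    · intro T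
      rw [g2, g3]
      exact Pool.Agent.W307.RG.fin_tw a1 he (hdT T)
  · have h1 : ∀ c ∈ Fam H, (∏ T : Finset (Fin s), ((Pool.Agent.W307.SE.SelR
        ((d₀ * ∏ i ∈ T, d i) ^ 2 * c.1)
        ((d₀ * ∏ i ∈ T, d i) ^ 3 * c.2)).ncard : ℝ)) ^ ((2 : ℝ) / 2 ^ s) ≤
        ∑ T : Finset (Fin s), ((1 : ℝ) / 2 ^ s) * ((Pool.Agent.W307.SE.SelR
          ((d₀ * ∏ i ∈ T, d i) ^ 2 * c.1) ((d₀ * ∏ i ∈ T, d i) ^ 3 * c.2)).ncard : ℝ) ^ 2 := by
      intro c _
      have := Pool.Agent.TH841.NF.prod_rpow_le (fun T : Finset (Fin s) =>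
        ((Pool.Agent.W307.SE.SelR ((d₀ * ∏ i ∈ T, d i) ^ 2 * c.1)
          ((d₀ * ∏ i ∈ T, d i) ^ 3 * c.2)).ncard : ℝ)) (fun T => Nat.cast_nonneg _)
      rw [hn] at this
      exact this
    refine (sum_le_sum h1).trans ?_
    rw [sum_comm]
    have h2 : ∀ T : Finset (Fin s), ∑ c ∈ Fam H, ((1 : ℝ) / 2 ^ s) *
        ((Pool.Agent.W307.SE.SelR ((d₀ * ∏ i ∈ T, d i) ^ 2 * c.1)
          ((d₀ * ∏ i ∈ T, d i) ^ 3 * c.2)).ncard : ℝ) ^ 2 ≤ ((1 : ℝ) / 2 ^ s) *
        (C * 128 ^ (d₀ * ∏ i, d i).natAbs.primeFactors.card * (Fam H).card) := by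
      intro T
      rw [← mul_sum]
      refine mul_le_mul_of_nonneg_left ?_ (by positivity)
      have h3 := (hC _ (hdT T) H).2
      rw [← Fam_eq] at h3
      refine h3.trans ?_
      have h4 : (d₀ * ∏ i ∈ T, d i).natAbs.primeFactors.card ≤
          (d₀ * ∏ i, d i).natAbs.primeFactors.card := by
        apply card_le_card
        apply Nat.primeFactors_mono
        · rw [Int.natAbs_dvd_natAbs]
          exact mul_dvd_mul_left _ (prod_dvd_prod_of_subset _ _ _ (subset_univ T))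
        · rw [Ne, Int.natAbs_eq_zero]
          exact hdT univ
      have h5 : (128 : ℝ) ^ (d₀ * ∏ i ∈ T, d i).natAbs.primeFactors.card ≤
          128 ^ (d₀ * ∏ i, d i).natAbs.primeFactors.card :=
        pow_le_pow_right₀ (by norm_num) h4
      gcongr
    refine (sum_le_sum fun T _ => h2 T).trans (le_of_eq ?_)
    rw [sum_const, card_univ, nsmul_eq_mul, hn, ← mul_assoc]
    rw [mul_one_div_cancel (by positivity), one_mul]

end Pool.Agent.Results.MP_78d38b_nt.QuadraticBaseChange
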