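import Mathlib
import Pool.Agent.TH344.SG.Bin
import Pool.Agent.TH344.SG.Cor

/-!
# Tate-Shafarevich groups in the families given by split binary forms

Let `n` be even, let `l k i` (`k = 0, 1, 2`, `i = 1, ..., n`) be pairwise non-proportional linear
forms in `u, v` with integer coefficients, let `m k i` be odd, and let
`F_k = a_k ∏_i (l k i) ^ (m k i)` be binary forms with `F_0 - F_1 = F_2`. The curves
`E : y² = x (x - F_0 (u, v)) (x - F_1 (u, v))` are the fibres at `t = u / v` of an elliptic surface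
with full `2`-torsion over `ℚ(t)`. We show that the average of `2 ^ rank * #Ш[2]` over the coprime
pairs `(u, v)` in squares of side `X` is bounded, uniformly in the square, if the coordinates of the
square are bounded by a power of `X`; so is the average of `2 ^ (rank + t)`, `t` the corank of the
2-primary part of `Ш`, which is finite if and only if `t = 0`.

The group `Ш` is that of `Pool.Agent.TH344.SH.Def`: classes of continuous 1-cocycles of the absolute
Galois group of `ℚ` with values in the points over the algebraic numbers, that are trivial over all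
completions `ℚ_p` and `ℝ`.
-/

namespace Pool.Agent.Results.MP_78d38b_nt.ShaSplitFamilies

open Finset Pool.Agent.TH344.SH Pool.Agent.TH344.SG

/-- the curve `y² = x (x - A) (x - B)` -/
def E (A B : ℤ) : WeierstrassCurve ℚ := ⟨0, -((A : ℚ) + B), 0, (A : ℚ) * B, 0⟩

/-- the value at `(u, v)` of the binary form `F_k = a_k ∏_i (l k i) ^ (m k i)`, where
`l (k, i) = (α, β)` stands for the linear form `α u + β v` -/
def F {n : ℕ} (l : Fin 3 × Fin n → ℤ × ℤ) (m : Fin 3 × Fin n → ℕ) (a : Fin 3 → ℤ) (k : Fin 3)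
    (u v : ℤ) : ℤ :=
  a k * ∏ i : Fin n, ((l (k, i)).1 * u + (l (k, i)).2 * v) ^ m (k, i)

open Classical in
/-- the coprime pairs `(u, v)` with `U < u ≤ U + X`, `V < v ≤ V + X` and `F_k (u, v) ≠ 0` -/
noncomputable def S {n : ℕ} (l : Fin 3 × Fin n → ℤ × ℤ) (m : Fin 3 × Fin n → ℕ) (a : Fin 3 → ℤ)
    (X : ℕ) (U V : ℤ) : Finset (ℤ × ℤ) :=
  (Ioc U (U + X) ×ˢ Ioc V (V + X)).filter (fun t : ℤ × ℤ => IsCoprime t.1 t.2 ∧
    ∀ k, F l m a k t.1 t.2 ≠ 0)

/-- the fibre at `t = (u, v)` -/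
noncomputable def W {n : ℕ} (l : Fin 3 × Fin n → ℤ × ℤ) (m : Fin 3 × Fin n → ℕ) (a : Fin 3 → ℤ)
    (t : ℤ × ℤ) : WeierstrassCurve ℚ :=
  E (F l m a 0 t.1 t.2) (F l m a 1 t.1 t.2)

open Classical in
/-- the rank of the group of the rational points -/
noncomputable def rank (W : WeierstrassCurve ℚ) : ℕ := Module.finrank ℤ W.toAffine.Point

open Classical in
/-- **Theorem.** Let `n` be even, `l` pairwise non-proportional linear forms, `m` odd exponents, and
`F_0 - F_1 = F_2`. For every `L` there is a constant `C` such that for every `X ≥ 1` and all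
`|U|, |V| ≤ X ^ L`, over the coprime pairs `(u, v)` with `U < u ≤ U + X`, `V < v ≤ V + X` and
`F_k (u, v) ≠ 0`: the groups `Ш[2]` are finite, the sum of `2 ^ rank * #Ш[2]` is at most `C X²`, and
the sum of `2 ^ (rank + corank)` is at most `C X²`, where `corank` is that of the 2-primary part
of `Ш`. -/
theorem result (n : ℕ) (hn : Even n) (l : Fin 3 × Fin n → ℤ × ℤ) (m : Fin 3 × Fin n → ℕ)
    (hm : ∀ j, Odd (m j)) (a : Fin 3 → ℤ) (ha : ∀ k, a k ≠ 0)
    (hl : ∀ i j, i ≠ j → (l i).1 * (l j).2 ≠ (l j).1 * (l i).2)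
    (hF : ∀ u v : ℤ, F l m a 0 u v - F l m a 1 u v = F l m a 2 u v) (L : ℕ) :
    ∃ C : ℝ, ∀ (X : ℕ) (U V : ℤ), 1 ≤ X → U.natAbs ≤ X ^ L → V.natAbs ≤ X ^ L →
      (∀ t ∈ S l m a X U V, Finite (ShaTorsion (W l m a t) 2)) ∧
      ∑ t ∈ S l m a X U V, ((2 ^ rank (W l m a t) * Nat.card (ShaTorsion (W l m a t) 2) : ℕ) : ℝ) ≤
        C * (X : ℝ) ^ 2 ∧
      ∑ t ∈ S l m a X U V, ((2 ^ (rank (W l m a t) + corank2 (Sha (W l m a t))) : ℕ) : ℝ) ≤
        C * (X : ℝ) ^ 2 := by
  obtain ⟨C, hC⟩ := bin_sha hn l m hm a ha hl hF L E (fun _ _ => rfl)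
  have hfin : ∀ (X : ℕ) (U V : ℤ), ∀ t ∈ S l m a X U V, Finite (ShaTorsion (W l m a t) 2) := by
    intro X U V t ht
    unfold S at ht
    rw [mem_filter] at ht
    obtain ⟨-, -, h0⟩ := ht
    have hne : F l m a 0 t.1 t.2 ≠ F l m a 1 t.1 t.2 := by
      intro h
      apply h0 2
      rw [← hF, h, sub_self]
    exact (sha_sel _ _ (h0 0) (h0 1) hne _ rfl
      (Pool.Agent.W701.FK.sel_fin' (h0 0) (h0 1) hne)).1
  refine ⟨C, fun X U V hX hU hV => ⟨hfin X U V, ?_, ?_⟩⟩
  · refine le_trans (le_of_eq (sum_congr rfl fun t _ => ?_)) (hC X U V hX hU hV)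
    push_cast
    rfl
  · refine le_trans (sum_le_sum fun t ht => ?_) (hC X U V hX hU hV)
    have h1 : 2 ^ corank2 (Sha (W l m a t)) ≤ Nat.card (ShaTorsion (W l m a t) 2) := by
      have := corank2_le (G := Sha (W l m a t)) (n := 1) le_rfl (by
        rw [pow_one]
        exact hfin X U V t ht)
      rw [pow_one] at this
      exact this
    rw [pow_add]
    have h2 := Nat.mul_le_mul_left (2 ^ rank (W l m a t)) h1
    refine le_trans (Nat.cast_le (α := ℝ).2 h2) (le_of_eq ?_)
    push_cast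
    rfl

end Pool.Agent.Results.MP_78d38b_nt.ShaSplitFamilies
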