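import Mathlib
import Pool.Agent.TH841.SH.Wt
import Pool.Agent.TH342.ShortSqSha

/-!
# Tate-Shafarevich groups of the curves `y² = x (x - D a) (x - D b)`, `(a, b)` in a short square

For every `L` there is a constant `C` such that for all integers `D ≠ 0` and all squares of side `X`
at distance at most `X ^ L` from the origin: the sum of `(2 ^ rank * #Ш[2 ^ k] ^ (1 / k)) ^ 2` over the
elliptic curves `y² = x (x - D a) (x - D b)`, `(a, b)` in the square, is at most `C 128 ^ ω(D) X²`,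
and at most `C 128 ^ ω(D) X² / 4 ^ (r + δ)` of these curves have rank at least `r` and a
Tate-Shafarevich group containing `(ℚ₂ / ℤ₂) ^ δ`.
-/

set_option autoImplicit false

namespace Pool.Agent.Results.MP_78d38b_nt.ShortSquares

open Finset

open Pool.Agent.TH841.SH.D (Sha ShaTor HasDiv rk)

/-- The curve `y² = x³ - 27 (A² - A B + B²) x + 27 (A + B) (9 A B - 2 (A + B)²)` over `ℚ`, which is
isomorphic to `y² = x (x - A) (x - B)`: the roots of the polynomial on the right hand side are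
`-3 (A + B)`, `6 A - 3 B = 9 A - 3 (A + B)` and `6 B - 3 A = 9 B - 3 (A + B)`. -/
def E (A B : ℤ) : WeierstrassCurve ℚ :=
  ⟨0, 0, 0, ((-27 * (A ^ 2 - A * B + B ^ 2) : ℤ) : ℚ),
    ((27 * (A + B) * (9 * A * B - 2 * (A + B) ^ 2) : ℤ) : ℚ)⟩

/-- The pairs `(a, b)` with `N₁ < a ≤ N₁ + X` and `N₂ < b ≤ N₂ + X` for which
`y² = x (x - a) (x - b)` is an elliptic curve. -/
noncomputable def Sq (N₁ N₂ : ℤ) (X : ℕ) : Finset (ℤ × ℤ) :=
  (Ioc N₁ (N₁ + X) ×ˢ Ioc N₂ (N₂ + X)).filter (fun t => t.1 ≠ 0 ∧ t.2 ≠ 0 ∧ t.1 ≠ t.2)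

/-- `E A B` and `y² = x (x - A) (x - B)` are isomorphic over `ℚ`. -/
theorem E_iso (A B : ℤ) : ∃ C : WeierstrassCurve.VariableChange ℚ,
    C • (⟨0, -((A : ℚ) + B), 0, (A : ℚ) * B, 0⟩ : WeierstrassCurve ℚ) = E A B := by
  refine ⟨⟨(Units.mk0 (1 / 3 : ℚ) (by norm_num)), ((A : ℚ) + B) / 3, 0, 0⟩, ?_⟩
  unfold E
  ext
  · simp [WeierstrassCurve.variableChange_a₁]
  · rw [WeierstrassCurve.variableChange_a₂]
    simp
    ring
  · simp [WeierstrassCurve.variableChange_a₃]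
  · rw [WeierstrassCurve.variableChange_a₄]
    simp
    ring
  · rw [WeierstrassCurve.variableChange_a₆]
    simp
    ring

open Classical in
/-- **Theorem.** For every `L` there is a constant `C` such that for all integers `D ≠ 0`, `X ≥ 1` and
`N₁`, `N₂` with `|N₁|, |N₂| ≤ X ^ L`: for all `(a, b)` in the square `(N₁, N₁ + X] × (N₂, N₂ + X]` with
`a b (a - b) ≠ 0` and all `k` the group `Ш(E)[2 ^ k]` of `E : y² = x (x - D a) (x - D b)` is finite;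
for all `k ≥ 1` the sum of `(2 ^ rank * #Ш(E)[2 ^ k] ^ (1 / k)) ^ 2` over these `(a, b)` is at most
`C * 128 ^ ω(D) * X ^ 2`; for all `r`, `δ` the number of these `(a, b)` for which `E` has rank at least
`r` and `Ш(E)` has a subgroup isomorphic to `(ℚ₂ / ℤ₂) ^ δ` is at most
`C * 128 ^ ω(D) * X ^ 2 / 4 ^ (r + δ)`. -/
theorem result : ∀ L : ℕ, ∃ C : ℝ, ∀ (D N₁ N₂ : ℤ) (X : ℕ), D ≠ 0 → 1 ≤ X →
    |N₁| ≤ (X : ℤ) ^ L → |N₂| ≤ (X : ℤ) ^ L →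
    (∀ t ∈ Sq N₁ N₂ X, ∀ k : ℕ, Finite (ShaTor (E (D * t.1) (D * t.2)) (2 ^ k))) ∧
    (∀ k : ℕ, 1 ≤ k → ∑ t ∈ Sq N₁ N₂ X, ((2 : ℝ) ^ rk (E (D * t.1) (D * t.2)) *
      (Nat.card (ShaTor (E (D * t.1) (D * t.2)) (2 ^ k)) : ℝ) ^ ((1 : ℝ) / k)) ^ 2 ≤
        C * 128 ^ D.natAbs.primeFactors.card * (X : ℝ) ^ 2) ∧
    ∀ r δ : ℕ, (((Sq N₁ N₂ X).filter (fun t => r ≤ rk (E (D * t.1) (D * t.2)) ∧
      HasDiv (E (D * t.1) (D * t.2)) δ)).card : ℝ) ≤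
        C * 128 ^ D.natAbs.primeFactors.card * (X : ℝ) ^ 2 / 4 ^ (r + δ) := by
  intro L
  obtain ⟨C, hC, h⟩ := Pool.Agent.TH342.SQ.all_pairs L
  refine ⟨C, fun D N₁ N₂ X hD hX hN₁ hN₂ => ?_⟩
  have hN : ∀ N : ℤ, |N| ≤ (X : ℤ) ^ L → N.natAbs ≤ X ^ L := by
    intro N hN
    have : ((N.natAbs : ℕ) : ℤ) ≤ ((X ^ L : ℕ) : ℤ) := by
      rw [Int.natCast_natAbs]
      push_cast
      exact hN
    exact_mod_cast this
  have h1 := h D N₁ N₂ X hD hX (hN N₁ hN₁) (hN N₂ hN₂)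
  have h2 : ∑ t ∈ Sq N₁ N₂ X,
      ((Pool.Agent.W307.SE.Sel (D * t.1) (D * t.2)).ncard : ℝ) ^ 2 =
      ∑ t ∈ Pool.Agent.TH342.SQ.Bx N₁ N₂ X, Pool.Agent.TH342.SQ.GD D t := by
    unfold Sq Pool.Agent.TH342.SQ.Bx
    rw [sum_filter]
    exact sum_congr rfl fun t _ => rfl
  rw [← h2] at h1
  have hbd : ∀ t ∈ Sq N₁ N₂ X, Pool.Agent.TH841.SH.Bd (E (D * t.1) (D * t.2))
      ((Pool.Agent.W307.SE.Sel (D * t.1) (D * t.2)).ncard : ℝ) := by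
    intro t ht
    obtain ⟨_, t1, t2, t3⟩ := mem_filter.1 ht
    exact Pool.Agent.TH342.SQ.bd_sel (mul_ne_zero hD t1) (mul_ne_zero hD t2)
      (fun h => t3 (mul_left_cancel₀ hD h))
  obtain ⟨k1, k2, k3⟩ := Pool.Agent.TH841.SH.family (Sq N₁ N₂ X)
    (fun t => E (D * t.1) (D * t.2)) _ _ 2 hbd h1
  refine ⟨k1, k2, fun r δ => ?_⟩
  have k4 := k3 r δ
  rw [pow_mul] at k4
  norm_num at k4
  exact k4

end Pool.Agent.Results.MP_78d38b_nt.ShortSquares
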